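import Pool.Agent.T9h11.NF.Spec2

/-!
# NF, piece `CharK`: the additive characters modulo an ideal
-/

set_option autoImplicit false
set_option linter.unusedSectionVars false

namespace Pool.Agent.T9h95.NF

open Finset NumberField Pool.Agent.T9h42.GF Pool.Agent.T9h57.QD Pool.Agent.T9h11.NF

variable {K : Type} [Field K] [NumberField K]

theorem char_eq_of_sub {τ : Ideal (𝓞 K)} {χ : AddChar (𝓞 K) ℂ} (h : τ ≤ cond χ) {x y : 𝓞 K}
    (hxy : x - y ∈ τ) : χ x = χ y := by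
  have h1 : χ (x - y) = 1 := by simpa using h hxy 1
  have h2 : x = (x - y) + y := by ring
  rw [h2, AddChar.map_add_eq_mul, h1, one_mul]

theorem mk_out_sub (τ : Ideal (𝓞 K)) (x : 𝓞 K) :
    Quotient.out (Ideal.Quotient.mk τ x) - x ∈ τ :=
  Ideal.Quotient.eq.mp (Ideal.Quotient.mk_out (Ideal.Quotient.mk τ x))

/-- The character of the quotient. -/
noncomputable def dn (τ : Ideal (𝓞 K)) (χ : AddChar (𝓞 K) ℂ) (h : τ ≤ cond χ) :
    AddChar (𝓞 K ⧸ τ) ℂ where
  toFun q := χ (Quotient.out q)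
  map_zero_eq_one' := by
    have h1 := char_eq_of_sub h (mk_out_sub τ 0)
    rw [map_zero] at h1
    rw [h1, AddChar.map_zero_eq_one]
  map_add_eq_mul' a b := by
    rw [← AddChar.map_add_eq_mul]
    apply char_eq_of_sub h
    rw [← Ideal.Quotient.eq, map_add, Ideal.Quotient.mk_out, Ideal.Quotient.mk_out,
      Ideal.Quotient.mk_out]

/-- The pull back of a character of the quotient. -/
noncomputable def up (τ : Ideal (𝓞 K)) (ψ : AddChar (𝓞 K ⧸ τ) ℂ) : AddChar (𝓞 K) ℂ :=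
  ψ.compAddMonoidHom (Ideal.Quotient.mk τ : 𝓞 K →+ 𝓞 K ⧸ τ)

theorem up_apply (τ : Ideal (𝓞 K)) (ψ : AddChar (𝓞 K ⧸ τ) ℂ) (x : 𝓞 K) :
    up τ ψ x = ψ (Ideal.Quotient.mk τ x) := rfl

theorem up_injective (τ : Ideal (𝓞 K)) : Function.Injective (up (K := K) τ) := by
  intro ψ ψ' h
  ext q
  obtain ⟨x, rfl⟩ := Ideal.Quotient.mk_surjective q
  rw [← up_apply, h, up_apply]

theorem le_cond_up (τ : Ideal (𝓞 K)) (ψ : AddChar (𝓞 K ⧸ τ) ℂ) : τ ≤ cond (up τ ψ) := by
  intro x hx y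
  have h1 : Ideal.Quotient.mk τ (y * x) = 0 :=
    Ideal.Quotient.eq_zero_iff_mem.mpr (τ.mul_mem_left y hx)
  rw [up_apply, h1, AddChar.map_zero_eq_one]

theorem up_dn (τ : Ideal (𝓞 K)) (χ : AddChar (𝓞 K) ℂ) (h : τ ≤ cond χ) :
    up τ (dn τ χ h) = χ := by
  ext x
  rw [up_apply]
  exact char_eq_of_sub h (mk_out_sub τ x)

theorem charK (K : Type) [Field K] [NumberField K] : CharK K := by
  classical
  intro τ hτ
  have : Finite (𝓞 K ⧸ τ) := Ideal.finiteQuotientOfFreeOfNeBot τ hτ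
  have : Fintype (𝓞 K ⧸ τ) := Fintype.ofFinite _
  refine ⟨(Finset.univ : Finset (AddChar (𝓞 K ⧸ τ) ℂ)).image (up τ), ?_, ?_, ?_, ?_⟩
  · intro χ
    constructor
    · intro h
      obtain ⟨ψ, -, rfl⟩ := Finset.mem_image.mp h
      exact le_cond_up τ ψ
    · intro h
      exact Finset.mem_image.mpr ⟨dn τ χ h, Finset.mem_univ _, up_dn τ χ h⟩
  · rw [Finset.card_image_of_injective _ (up_injective τ), Finset.card_univ,
      AddChar.card_eq]
    unfold nm
    rw [Ideal.absNorm_apply, Submodule.cardQuot_apply, Nat.card_eq_fintype_card]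
  · intro x
    rw [Finset.sum_image (fun a _ b _ hab => up_injective τ hab)]
    have h1 := AddChar.sum_apply_eq_ite (Ideal.Quotient.mk τ x)
    have h2 : ∑ ψ : AddChar (𝓞 K ⧸ τ) ℂ, up τ ψ x =
        ∑ ψ : AddChar (𝓞 K ⧸ τ) ℂ, ψ (Ideal.Quotient.mk τ x) := rfl
    rw [h2, h1]
    unfold nm ind
    rw [Ideal.absNorm_apply, Submodule.cardQuot_apply, Nat.card_eq_fintype_card]
    by_cases hx : x ∈ τ
    · rw [if_pos (Ideal.Quotient.eq_zero_iff_mem.mpr hx), if_pos hx]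
      simp
    · rw [if_neg (fun h => hx (Ideal.Quotient.eq_zero_iff_mem.mp h)), if_neg hx]
      simp
  · intro χ h x
    obtain ⟨ψ, -, rfl⟩ := Finset.mem_image.mp h
    rw [up_apply]
    exact AddChar.norm_apply ψ _

end Pool.Agent.T9h95.NF
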