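import Pool.Agent.T9h95.NF.Mean
import Pool.Agent.T9h31.NF.Phi

/-!
# NF, piece `MeanK`
-/

set_option autoImplicit false

namespace Pool.Agent.T9h95.NF

open Pool.Agent.T9h11.NF

theorem meanK (K : Type) [Field K] [NumberField K] : MeanK K :=
  meanK_of K (Pool.Agent.T9h31.NF.phiK K)

end Pool.Agent.T9h95.NF
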