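import Pool.Agent.T9h11.NF.Spec2

/-!
# NF, piece `MeanK`: means of the periodic functions in the slot estimates
-/

set_option autoImplicit false
set_option linter.unusedSectionVars false

namespace Pool.Agent.T9h95.NF

open Finset NumberField Pool.Agent.T9h42.GF Pool.Agent.T9h57.QD Pool.Agent.T9h11.NF

variable {K : Type} [Field K] [NumberField K]

/-! ### Coprime elements -/

theorem cop_iff_sup {x : 𝓞 K} {M : Ideal (𝓞 K)} : cop x M ↔ Ideal.span {x} ⊔ M = ⊤ :=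
  Ideal.isCoprime_iff_sup_eq

theorem cop_iff {x : 𝓞 K} {M : Ideal (𝓞 K)} : cop x M ↔ ∃ y : 𝓞 K, y * x - 1 ∈ M := by
  rw [cop, Ideal.isCoprime_iff_exists]
  constructor
  · rintro ⟨i, hi, j, hj, hij⟩
    obtain ⟨y, rfl⟩ := Ideal.mem_span_singleton'.mp hi
    refine ⟨y, ?_⟩
    have : y * x - 1 = -j := by rw [← hij]; ring
    rw [this]
    exact M.neg_mem hj
  · rintro ⟨y, hy⟩
    refine ⟨y * x, Ideal.mem_span_singleton'.mpr ⟨y, rfl⟩, -(y * x - 1), M.neg_mem hy, by ring⟩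

theorem cop_congr {x y : 𝓞 K} {M : Ideal (𝓞 K)} (h : x - y ∈ M) : cop x M ↔ cop y M := by
  rw [cop_iff, cop_iff]
  constructor
  · rintro ⟨z, hz⟩
    refine ⟨z, ?_⟩
    have : z * y - 1 = (z * x - 1) - z * (x - y) := by ring
    rw [this]
    exact M.sub_mem hz (M.mul_mem_left z h)
  · rintro ⟨z, hz⟩
    refine ⟨z, ?_⟩
    have : z * x - 1 = (z * y - 1) + z * (x - y) := by ring
    rw [this]
    exact M.add_mem hz (M.mul_mem_left z h)

theorem cop_mono {x : 𝓞 K} {M N : Ideal (𝓞 K)} (hMN : M ≤ N) (h : cop x M) : cop x N := by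
  rw [cop_iff] at h ⊢
  obtain ⟨y, hy⟩ := h
  exact ⟨y, hMN hy⟩

theorem cop_mul {x y : 𝓞 K} {M : Ideal (𝓞 K)} (hx : cop x M) (hy : cop y M) :
    cop (x * y) M := by
  rw [cop_iff] at hx hy ⊢
  obtain ⟨a, ha⟩ := hx
  obtain ⟨b, hb⟩ := hy
  refine ⟨a * b, ?_⟩
  have : a * b * (x * y) - 1 = (a * x - 1) * (b * y) + (b * y - 1) := by ring
  rw [this]
  exact M.add_mem (M.mul_mem_right _ ha) hb

theorem cop_of_mul {x y : 𝓞 K} {M : Ideal (𝓞 K)} (h : cop (x * y) M) : cop y M := by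
  rw [cop_iff] at h ⊢
  obtain ⟨a, ha⟩ := h
  exact ⟨a * x, by rwa [mul_assoc]⟩

theorem cop_of_PD {x : 𝓞 K} {M q : Ideal (𝓞 K)} (hq : q ≠ ⊥) (hPD : PD q M) (h : cop x M) :
    cop x q := by
  rw [cop_iff_sup]
  by_contra hne
  obtain ⟨p, hp, hle⟩ := Ideal.exists_le_maximal _ hne
  have h1 : q ≤ p := le_sup_right.trans hle
  have h2 : p ≠ ⊥ := fun h0 => hq (le_bot_iff.mp (h0 ▸ h1))
  have h3 : M ≤ p := Ideal.dvd_iff_le.mp (hPD p hp.isPrime h2 (Ideal.dvd_iff_le.mpr h1))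
  have h4 : Ideal.span {x} ⊔ M ≤ p := sup_le (le_sup_left.trans hle) h3
  rw [cop_iff_sup.mp h] at h4
  exact hp.ne_top (top_le_iff.mp h4)

theorem coprime_of_PD {q M h : Ideal (𝓞 K)} (hq : q ≠ ⊥) (hPD : PD q M) (hc : IsCoprime h M) :
    IsCoprime h q := by
  rw [Ideal.isCoprime_iff_sup_eq] at hc ⊢
  by_contra hne
  obtain ⟨p, hp, hle⟩ := Ideal.exists_le_maximal _ hne
  have h1 : q ≤ p := le_sup_right.trans hle
  have h2 : p ≠ ⊥ := fun h0 => hq (le_bot_iff.mp (h0 ▸ h1))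
  have h3 : M ≤ p := Ideal.dvd_iff_le.mp (hPD p hp.isPrime h2 (Ideal.dvd_iff_le.mpr h1))
  have h4 : h ⊔ M ≤ p := sup_le (le_sup_left.trans hle) h3
  rw [hc] at h4
  exact hp.ne_top (top_le_iff.mp h4)

/-! ### Sums over the classes -/

section sums

variable {T : Ideal (𝓞 K)} [Fintype (𝓞 K ⧸ T)] {out : 𝓞 K ⧸ T → 𝓞 K}
  (hout : ∀ q, Ideal.Quotient.mk T (out q) = q)

include hout

theorem out_mk_sub (x : 𝓞 K) : out (Ideal.Quotient.mk T x) - x ∈ T :=
  Ideal.Quotient.eq.mp (hout _)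

theorem sum_add {A : Type} [AddCommMonoid A] (g : 𝓞 K → A)
    (hg : ∀ x y, x - y ∈ T → g x = g y) (t : 𝓞 K) :
    ∑ q, g (out q + t) = ∑ q, g (out q) := by
  rw [← Equiv.sum_comp (Equiv.addRight (Ideal.Quotient.mk T t)) (fun q => g (out q))]
  refine Finset.sum_congr rfl fun q _ => ?_
  refine hg _ _ ?_
  rw [← Ideal.Quotient.eq]
  simp [hout]

theorem sum_mul {A : Type} [AddCommMonoid A] (g : 𝓞 K → A)
    (hg : ∀ x y, x - y ∈ T → g x = g y) (u : 𝓞 K) (hu : cop u T) :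
    ∑ q, g (u * out q) = ∑ q, g (out q) := by
  obtain ⟨v, hv⟩ := cop_iff.mp hu
  have h1 : IsUnit (Ideal.Quotient.mk T u) := by
    refine IsUnit.of_mul_eq_one (Ideal.Quotient.mk T v) ?_
    rw [← map_mul, ← map_one (Ideal.Quotient.mk T), Ideal.Quotient.eq, mul_comm]
    exact hv
  rw [← Equiv.sum_comp (Units.mulLeft h1.unit) (fun q => g (out q))]
  refine Finset.sum_congr rfl fun q _ => ?_
  refine hg _ _ ?_
  rw [← Ideal.Quotient.eq]
  simp [hout]

end sums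

theorem ind_congr {p q : Prop} (h : p ↔ q) : ind p = ind q := by
  have : p = q := propext h
  rw [this]

theorem exists_crt {I J : Ideal (𝓞 K)} (h : IsCoprime I J) (x : 𝓞 K) :
    ∃ t ∈ J, t - x ∈ I := by
  obtain ⟨i, hi, j, hj, hij⟩ := Ideal.isCoprime_iff_exists.mp h
  refine ⟨j * x, J.mul_mem_right x hj, ?_⟩
  have : j * x - x = -(i * x) := by
    have h1 : j = 1 - i := by rw [← hij]; ring
    rw [h1]; ring
  rw [this]
  exact I.neg_mem (I.mul_mem_right x hi)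

theorem nm_eq_card {h : Ideal (𝓞 K)} [Fintype (𝓞 K ⧸ h)] : nm h = (Fintype.card (𝓞 K ⧸ h) : ℝ) := by
  unfold nm
  rw [Ideal.absNorm_apply, Submodule.cardQuot_apply, Nat.card_eq_fintype_card]

/-- Equidistribution modulo `h` of a predicate which is invariant under an ideal `J` prime to
`h`. -/
theorem equi_add {T J h : Ideal (𝓞 K)} [Fintype (𝓞 K ⧸ T)] {out : 𝓞 K ⧸ T → 𝓞 K}
    (hout : ∀ q, Ideal.Quotient.mk T (out q) = q) (hh : h ≠ ⊥) (hJ : IsCoprime h J)
    (hTJ : T ≤ J) (hTh : T ≤ h) (P : 𝓞 K → Prop) (hP : ∀ x y, x - y ∈ J → (P x ↔ P y))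
    (κ : 𝓞 K) :
    nm h * ∑ q, ind (P (out q) ∧ out q - κ ∈ h) = ∑ q, ind (P (out q)) := by
  classical
  have : Finite (𝓞 K ⧸ h) := Ideal.finiteQuotientOfFreeOfNeBot h hh
  have : Fintype (𝓞 K ⧸ h) := Fintype.ofFinite _
  have key : ∀ r : 𝓞 K ⧸ h, ∑ q, ind (P (out q) ∧ Ideal.Quotient.mk h (out q) = r) =
      ∑ q, ind (P (out q) ∧ out q - κ ∈ h) := by
    intro r
    obtain ⟨y, rfl⟩ := Ideal.Quotient.mk_surjective r
    obtain ⟨t, htJ, ht⟩ := exists_crt hJ (y - κ)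
    rw [← sum_add hout (fun x => ind (P x ∧ Ideal.Quotient.mk h x = Ideal.Quotient.mk h y)) ?_ t]
    · refine Finset.sum_congr rfl fun q _ => ind_congr ?_
      refine and_congr (hP _ _ (by simpa using htJ)) ?_
      rw [Ideal.Quotient.eq]
      have h1 : out q + t - y = (out q - κ) + (t - (y - κ)) := by ring
      rw [h1]
      exact ⟨fun h2 => by simpa using h.sub_mem h2 ht, fun h2 => h.add_mem h2 ht⟩
    · intro x x' hx
      refine ind_congr (and_congr (hP _ _ (hTJ hx)) ?_)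
      have h1 : Ideal.Quotient.mk h x = Ideal.Quotient.mk h x' :=
        Ideal.Quotient.eq.mpr (hTh hx)
      rw [h1]
  have h2 : ∑ r : 𝓞 K ⧸ h, ∑ q, ind (P (out q) ∧ Ideal.Quotient.mk h (out q) = r) =
      ∑ q, ind (P (out q)) := by
    rw [Finset.sum_comm]
    refine Finset.sum_congr rfl fun q _ => ?_
    rw [Finset.sum_eq_single (Ideal.Quotient.mk h (out q))]
    · exact ind_congr ⟨fun h3 => h3.1, fun h3 => ⟨h3, rfl⟩⟩
    · intro r _ hr
      unfold ind
      rw [if_neg]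
      exact fun h3 => hr h3.2.symm
    · intro h3
      exact absurd (Finset.mem_univ _) h3
  rw [← h2, Finset.sum_congr rfl fun r _ => key r, Finset.sum_const, Finset.card_univ,
    nsmul_eq_mul, nm_eq_card]

/-- Equidistribution of the elements prime to `M` in the classes prime to `q`. -/
theorem equi_mul {T M q : Ideal (𝓞 K)} [Fintype (𝓞 K ⧸ T)] {out : 𝓞 K ⧸ T → 𝓞 K}
    (hout : ∀ q, Ideal.Quotient.mk T (out q) = q) (hq : q ≠ ⊥) (hPD : PD q M)
    (hTM : T ≤ M) (hTq : T ≤ q) (hphi : ∀ x : 𝓞 K, cop x q → ∃ y : 𝓞 K, cop y T ∧ y - x ∈ q)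
    (κ : 𝓞 K) (hκ : cop κ q) :
    phi q * ∑ r, ind (cop (out r) M ∧ out r - κ ∈ q) = ∑ r, ind (cop (out r) M) := by
  classical
  have : Finite (𝓞 K ⧸ q) := Ideal.finiteQuotientOfFreeOfNeBot q hq
  have : Fintype (𝓞 K ⧸ q)ˣ := Fintype.ofFinite _
  have hper : ∀ (c : 𝓞 K ⧸ q) (x y : 𝓞 K), x - y ∈ T →
      ind (cop x M ∧ Ideal.Quotient.mk q x = c) = ind (cop y M ∧ Ideal.Quotient.mk q y = c) := by
    intro c x x' hx
    refine ind_congr (and_congr (cop_congr (hTM hx)) ?_)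
    have h1 : Ideal.Quotient.mk q x = Ideal.Quotient.mk q x' :=
      Ideal.Quotient.eq.mpr (hTq hx)
    rw [h1]
  have key : ∀ c : (𝓞 K ⧸ q)ˣ,
      ∑ r, ind (cop (out r) M ∧ Ideal.Quotient.mk q (out r) = (c : 𝓞 K ⧸ q)) =
      ∑ r, ind (cop (out r) M ∧ out r - κ ∈ q) := by
    intro c
    obtain ⟨y, hy⟩ := Ideal.Quotient.mk_surjective (c : 𝓞 K ⧸ q)
    obtain ⟨z, hz⟩ := Ideal.Quotient.mk_surjective ((c⁻¹ : (𝓞 K ⧸ q)ˣ) : 𝓞 K ⧸ q)
    obtain ⟨k, hk⟩ := cop_iff.mp hκ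
    have hyc : cop y q := by
      refine cop_iff.mpr ⟨z, ?_⟩
      rw [← Ideal.Quotient.eq, map_mul, map_one, hy, hz]
      exact c.inv_mul
    have hkc : cop (y * k) q := cop_mul hyc (cop_iff.mpr ⟨κ, by rwa [mul_comm]⟩)
    obtain ⟨u, huT, hu⟩ := hphi _ hkc
    rw [← sum_mul hout (fun x => ind (cop x M ∧ Ideal.Quotient.mk q x = (c : 𝓞 K ⧸ q)))
      (hper c) u huT]
    refine Finset.sum_congr rfl fun r _ => ind_congr ?_
    have huM : cop u M := cop_mono hTM huT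
    have huq : cop u q := cop_mono hTq huT
    have hmk : Ideal.Quotient.mk q (u * κ) = (c : 𝓞 K ⧸ q) := by
      rw [← hy, Ideal.Quotient.eq]
      have h1 : u * κ - y = (u - y * k) * κ + y * (k * κ - 1) := by ring
      rw [h1]
      exact q.add_mem (q.mul_mem_right _ hu) (q.mul_mem_left _ hk)
    refine and_congr ⟨fun h => cop_of_mul h, fun h => cop_mul huM h⟩ ?_
    rw [← hmk, Ideal.Quotient.eq, ← mul_sub]
    constructor
    · intro h
      obtain ⟨v, hv⟩ := cop_iff.mp huq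
      have h1 : out r - κ = v * (u * (out r - κ)) - (v * u - 1) * (out r - κ) := by ring
      rw [h1]
      exact q.sub_mem (q.mul_mem_left _ h) (q.mul_mem_right _ hv)
    · intro h
      exact q.mul_mem_left _ h
  have h2 : ∑ c : (𝓞 K ⧸ q)ˣ,
      ∑ r, ind (cop (out r) M ∧ Ideal.Quotient.mk q (out r) = (c : 𝓞 K ⧸ q)) =
      ∑ r, ind (cop (out r) M) := by
    rw [Finset.sum_comm]
    refine Finset.sum_congr rfl fun r _ => ?_
    by_cases hr : cop (out r) M
    · have hrq : cop (out r) q := cop_of_PD hq hPD hr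
      obtain ⟨v, hv⟩ := cop_iff.mp hrq
      have h1 : IsUnit (Ideal.Quotient.mk q (out r)) := by
        refine IsUnit.of_mul_eq_one (Ideal.Quotient.mk q v) ?_
        rw [← map_mul, ← map_one (Ideal.Quotient.mk q), Ideal.Quotient.eq, mul_comm]
        exact hv
      rw [Finset.sum_eq_single h1.unit]
      · exact ind_congr ⟨fun h3 => h3.1, fun h3 => ⟨h3, by simp⟩⟩
      · intro c _ hc
        unfold ind
        rw [if_neg]
        rintro ⟨-, h3⟩
        apply hc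
        ext
        rw [← h3]
        simp
      · intro h3
        exact absurd (Finset.mem_univ _) h3
    · have h0 : ind (cop (out r) M) = 0 := by
        unfold ind
        rw [if_neg hr]
      rw [h0]
      refine Finset.sum_eq_zero fun c _ => ?_
      unfold ind
      rw [if_neg]
      exact fun h3 => hr h3.1
  rw [← h2, Finset.sum_congr rfl fun r _ => key r, Finset.sum_const, Finset.card_univ,
    nsmul_eq_mul, phi, Nat.card_eq_fintype_card]

theorem mean_aux (hPhi : PhiK K) (M q₀ h T : Ideal (𝓞 K)) (hT : T = M * q₀ * h) (hM : M ≠ ⊥)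
    (hq₀ : q₀ ≠ ⊥) (hh : h ≠ ⊥) (hPD : PD q₀ M) (hcop : IsCoprime h M)
    [Fintype (𝓞 K ⧸ T)] (out : 𝓞 K ⧸ T → 𝓞 K)
    (hout : ∀ q, Ideal.Quotient.mk T (out q) = q) :
    (∀ κ : 𝓞 K, cop κ q₀ → ∑ q, (ind (cop (out q) M ∧ out q - κ ∈ q₀ * h) -
      ind (cop (out q) M) / (phi q₀ * nm h)) = 0) ∧
    (∑ q, (ind (cop (out q) M ∧ out q ∈ h) - ind (cop (out q) M) / nm h) = 0) ∧
    (∀ (κ : 𝓞 K) (χ : AddChar (𝓞 K) ℂ), h ≤ cond χ → (∃ x, χ x ≠ 1) →
      ∑ q, ((ind (cop (out q) M ∧ out q - κ ∈ q₀) : ℝ) : ℂ) * χ (out q) = 0) ∧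
    (0 < ∑ q, ind (cop (out q) M)) ∧
    (∀ x y : 𝓞 K, x - y ∈ T → (cop x M ↔ cop y M)) := by
  classical
  obtain ⟨hφ1, -, hφ3⟩ := hPhi
  have hTM : T ≤ M := hT.le.trans (Ideal.mul_le_left.trans Ideal.mul_le_left)
  have hTq : T ≤ q₀ := hT.le.trans (Ideal.mul_le_left.trans Ideal.mul_le_right)
  have hTJ : T ≤ M * q₀ := hT.le.trans Ideal.mul_le_left
  have hTh : T ≤ h := hT.le.trans Ideal.mul_le_right
  have hcq : IsCoprime h q₀ := coprime_of_PD hq₀ hPD hcop
  have hcM : IsCoprime h (M * q₀) := hcop.mul_right hcq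
  have hnm : nm h ≠ 0 := by
    unfold nm
    exact_mod_cast (Ideal.absNorm_eq_zero_iff (I := h)).not.mpr hh
  have hJM : M * q₀ ≤ M := Ideal.mul_le_left
  have hJq : M * q₀ ≤ q₀ := Ideal.mul_le_right
  refine ⟨?_, ?_, ?_, ?_, ?_⟩
  · intro κ hκ
    have h1 := equi_add (T := T) (J := M * q₀) hout hh hcM hTJ hTh
      (fun x => cop x M ∧ x - κ ∈ q₀) (fun x y hxy => by
        refine and_congr (cop_congr (hJM hxy)) ?_
        have h2 : x - κ = (y - κ) + (x - y) := by ring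
        rw [h2]
        exact ⟨fun h3 => by simpa using q₀.sub_mem h3 (hJq hxy), fun h3 => q₀.add_mem h3 (hJq hxy)⟩)
      κ
    have h2 := equi_mul (T := T) hout hq₀ hPD hTM hTq (fun x hx => by
      obtain ⟨y, hy, hyx⟩ := hφ1 q₀ (M * h) hq₀ (mul_ne_zero hM hh) x hx
      refine ⟨y, ?_, hyx⟩
      have : q₀ * (M * h) = T := by rw [hT]; ring
      rwa [this] at hy) κ hκ
    have h3 : ∀ q, ind (cop (out q) M ∧ out q - κ ∈ q₀ * h) =
        ind ((cop (out q) M ∧ out q - κ ∈ q₀) ∧ out q - κ ∈ h) := by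
      intro q
      refine ind_congr ?_
      rw [Ideal.mul_eq_inf_of_isCoprime hcq.symm, Ideal.mem_inf, and_assoc]
    rw [Finset.sum_sub_distrib, Finset.sum_congr rfl fun q _ => h3 q, ← Finset.sum_div, ← h2, ← h1]
    have hp : phi q₀ ≠ 0 := (hφ3 q₀ hq₀).ne'
    field_simp
    ring
  · have h1 := equi_add (T := T) (J := M * q₀) hout hh hcM hTJ hTh
      (fun x => cop x M) (fun x y hxy => cop_congr (hJM hxy)) 0
    simp only [sub_zero] at h1
    rw [Finset.sum_sub_distrib, ← Finset.sum_div, ← h1]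
    field_simp
    ring
  · intro κ χ hχ hx
    obtain ⟨x₀, hx₀⟩ := hx
    obtain ⟨t, htJ, ht⟩ := exists_crt hcM x₀
    have hχh : ∀ x y : 𝓞 K, x - y ∈ h → χ x = χ y := by
      intro x y hxy
      have h1 : χ (x - y) = 1 := by simpa using hχ hxy 1
      have h2 : x = (x - y) + y := by ring
      rw [h2, AddChar.map_add_eq_mul, h1, one_mul]
    have hχt : χ t ≠ 1 := by rwa [hχh t x₀ ht]
    set S : ℂ := ∑ q, ((ind (cop (out q) M ∧ out q - κ ∈ q₀) : ℝ) : ℂ) * χ (out q) with hS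
    have h1 : S = S * χ t := by
      have h2 := sum_add hout
        (fun x => ((ind (cop x M ∧ x - κ ∈ q₀) : ℝ) : ℂ) * χ x) (fun x y hxy => by
          have h3 : ind (cop x M ∧ x - κ ∈ q₀) = ind (cop y M ∧ y - κ ∈ q₀) := by
            refine ind_congr (and_congr (cop_congr (hTM hxy)) ?_)
            have h2 : x - κ = (y - κ) + (x - y) := by ring
            rw [h2]
            exact ⟨fun h3 => by simpa using q₀.sub_mem h3 (hTq hxy),
              fun h3 => q₀.add_mem h3 (hTq hxy)⟩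
          simp only [h3, hχh x y (hTh hxy)]) t
      rw [hS, Finset.sum_mul, ← h2]
      refine Finset.sum_congr rfl fun q _ => ?_
      have h3 : ind (cop (out q + t) M ∧ out q + t - κ ∈ q₀) =
          ind (cop (out q) M ∧ out q - κ ∈ q₀) := by
        refine ind_congr (and_congr (cop_congr (by simpa using hJM htJ)) ?_)
        have h2 : out q + t - κ = (out q - κ) + t := by ring
        rw [h2]
        exact ⟨fun h3 => by simpa using q₀.sub_mem h3 (hJq htJ),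
          fun h3 => q₀.add_mem h3 (hJq htJ)⟩
      simp only [h3, AddChar.map_add_eq_mul]
      ring
    have h4 : S * (χ t - 1) = 0 := by rw [mul_sub, mul_one, ← h1, sub_self]
    rcases mul_eq_zero.mp h4 with h5 | h5
    · exact h5
    · exact absurd (sub_eq_zero.mp h5) hχt
  · have h1 : cop (out (Ideal.Quotient.mk T 1)) M := by
      refine (cop_congr (hTM (out_mk_sub hout 1))).mpr (cop_iff.mpr ⟨1, by simp⟩)
    refine Finset.sum_pos' (fun q _ => ?_) ⟨Ideal.Quotient.mk T 1, Finset.mem_univ _, ?_⟩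
    · unfold ind
      split_ifs <;> norm_num
    · unfold ind
      rw [if_pos h1]
      norm_num
  · intro x y hxy
    exact cop_congr (hTM hxy)

theorem meanK_of (K : Type) [Field K] [NumberField K] (hPhi : PhiK K) : MeanK K := by
  intro M q₀ h hM hq₀ hh hPD hcop _ out hout
  exact mean_aux hPhi M q₀ h _ rfl hM hq₀ hh hPD hcop out hout

end Pool.Agent.T9h95.NF
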